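import Pool.Agent.Lib.MP_859dd5_ag.PP.N0

/-!
# Balanced multisets: orbits and partners
-/

namespace UnrG

variable {p e N : ℕ}

/-- Hint: `p ^ e = 1`, so `j ↦ p ^ j` has period `e`; the map `j ↦ (j + k) % e` permutes `range e`
(`Finset.card_bij` or `Finset.card_nbij'`). -/
lemma cnt1_pow_mul (he : 0 < e) (hpe : (p : ZMod N) ^ e = 1) (k : ℕ) (x a : ZMod N) :
    cnt1 p e ((p : ZMod N) ^ k * x) a = cnt1 p e x a := by
  have hp : ∀ j : ℕ, (p : ZMod N) ^ (j % e) = (p : ZMod N) ^ j := by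
    intro j
    conv_rhs => rw [← Nat.mod_add_div j e, pow_add, pow_mul, hpe, one_pow, mul_one]
  unfold cnt1
  refine Finset.card_bij (fun j _ => (j + k) % e) ?_ ?_ ?_
  · intro j hj
    rw [Finset.mem_filter, Finset.mem_range] at hj ⊢
    refine ⟨Nat.mod_lt _ he, ?_⟩
    rw [hp, pow_add, mul_assoc]
    exact hj.2
  · intro i hi j hj hij
    rw [Finset.mem_filter, Finset.mem_range] at hi hj
    have h1 : (i + k) ≡ (j + k) [MOD e] := hij
    have h2 : i ≡ j [MOD e] := Nat.ModEq.add_right_cancel' k h1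
    exact Nat.ModEq.eq_of_lt_of_lt h2 hi.1 hj.1
  · intro b hb
    rw [Finset.mem_filter, Finset.mem_range] at hb
    obtain ⟨i, hi, hib⟩ : ∃ i < e, (i + k) % e = b := by
      refine ⟨(b + (e - k % e)) % e, Nat.mod_lt _ he, ?_⟩
      have h1 : k % e < e := Nat.mod_lt _ he
      rw [Nat.mod_add_mod]
      have h2 : b + (e - k % e) + k = b + e * (k / e + 1) := by
        have h3 := Nat.mod_add_div k e
        have h4 : e * (k / e + 1) = e * (k / e) + e := by ring
        omega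
      rw [h2, Nat.add_mul_mod_self_left, Nat.mod_eq_of_lt hb.1]
    refine ⟨i, ?_, hib⟩
    rw [Finset.mem_filter, Finset.mem_range]
    refine ⟨hi, ?_⟩
    rw [← mul_assoc, ← pow_add, ← hp, hib]
    exact hb.2

/-- Hint: `p ^ j * -x = a` iff `p ^ j * x = -a`. -/
lemma cnt1_neg (x a : ZMod N) : cnt1 p e (-x) a = cnt1 p e x (-a) := by
  unfold cnt1
  congr 1
  refine Finset.filter_congr fun j _ => ?_
  rw [mul_neg]
  exact neg_eq_iff_eq_neg

/-- Hint: `j = 0`. -/
lemma cnt1_self_pos (he : 0 < e) (x : ZMod N) : 0 < cnt1 p e x x := by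
  unfold cnt1
  refine Finset.card_pos.mpr ⟨0, ?_⟩
  rw [Finset.mem_filter, Finset.mem_range]
  exact ⟨he, by rw [pow_zero, one_mul]⟩

/-- Hint: `Multiset.sum_eq_zero_iff`-type argument or induction on `S`; `Finset.card_pos`. -/
lemma exists_of_cnt_pos {S : Multiset (ZMod N)} {a : ZMod N} (h : 0 < cnt p e S a) :
    ∃ x ∈ S, ∃ j < e, (p : ZMod N) ^ j * x = a := by
  induction S using Multiset.induction_on with
  | empty =>
    rw [cnt_zero] at h
    exact absurd h (lt_irrefl 0)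
  | cons x S ih =>
    rw [cnt_cons] at h
    rcases Nat.eq_zero_or_pos (cnt p e S a) with h0 | h0
    · rw [h0, add_zero] at h
      unfold cnt1 at h
      obtain ⟨j, hj⟩ := Finset.card_pos.mp h
      rw [Finset.mem_filter, Finset.mem_range] at hj
      exact ⟨x, Multiset.mem_cons_self x S, j, hj.1, hj.2⟩
    · obtain ⟨y, hy, j, hj, h1⟩ := ih h0
      exact ⟨y, Multiset.mem_cons_of_mem hy, j, hj, h1⟩

/-- Hint: `p ^ i * x = a` and `p ^ j * y = -a` give `y = -p ^ ((i + (e - j)) % e) * x`. -/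
lemma partner_of_eq (he : 0 < e) (hpe : (p : ZMod N) ^ e = 1) {x y a : ZMod N} {i j : ℕ}
    (hi : i < e) (hj : j < e) (h1 : (p : ZMod N) ^ i * x = a) (h2 : (p : ZMod N) ^ j * y = -a) :
    ∃ k < e, y = -(p : ZMod N) ^ k * x := by
  have hp : ∀ j : ℕ, (p : ZMod N) ^ (j % e) = (p : ZMod N) ^ j := by
    intro j
    conv_rhs => rw [← Nat.mod_add_div j e, pow_add, pow_mul, hpe, one_pow, mul_one]
  refine ⟨(i + (e - j)) % e, Nat.mod_lt _ he, ?_⟩
  rw [hp]
  have h3 : (p : ZMod N) ^ j * (p : ZMod N) ^ (e - j) = 1 := by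
    rw [← pow_add, Nat.add_sub_cancel' hj.le, hpe]
  have h4 : y = (p : ZMod N) ^ (e - j) * ((p : ZMod N) ^ j * y) := by
    rw [← mul_assoc, mul_comm ((p : ZMod N) ^ (e - j)), h3, one_mul]
  rw [h4, h2, ← h1, pow_add]
  ring

end UnrG
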