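import Mathlib

/-!
# Balanced multisets of exponents
-/

namespace UnrG

/-- The number of `j < e` with `p ^ j x = a`. -/
def cnt1 (p e : ℕ) {N : ℕ} (x a : ZMod N) : ℕ :=
  ((Finset.range e).filter fun j => (p : ZMod N) ^ j * x = a).card

/-- The number of pairs `(x, j)`, `x ∈ S` (with multiplicity), `j < e`, with `p ^ j x = a`. -/
def cnt (p e : ℕ) {N : ℕ} (S : Multiset (ZMod N)) (a : ZMod N) : ℕ :=
  (S.map fun x => cnt1 p e x a).sum

/-- A balanced multiset: the counting function is even. -/
def Bal (p e : ℕ) {N : ℕ} (S : Multiset (ZMod N)) : Prop :=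
  ∀ a, cnt p e S (-a) = cnt p e S a

/-- The exponents of a three term relation. -/
def tripE {N : ℕ} (B A : ZMod N) : Fin 3 → ZMod N := ![B, A, -(B + A)]

/-- All exponents of the main block and of the three term blocks. -/
def tot {N s l : ℕ} (e : Fin s → ZMod N) (B A : Fin l → ZMod N) : Multiset (ZMod N) :=
  Multiset.map e Finset.univ.val + ∑ j, Multiset.map (tripE (B j) (A j)) Finset.univ.val

variable {p e N : ℕ}

lemma cnt_add (S T : Multiset (ZMod N)) (a : ZMod N) :
    cnt p e (S + T) a = cnt p e S a + cnt p e T a := by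
  unfold cnt
  rw [Multiset.map_add, Multiset.sum_add]

lemma cnt_cons (x : ZMod N) (S : Multiset (ZMod N)) (a : ZMod N) :
    cnt p e (x ::ₘ S) a = cnt1 p e x a + cnt p e S a := by
  unfold cnt
  rw [Multiset.map_cons, Multiset.sum_cons]

lemma cnt_zero (a : ZMod N) : cnt p e (0 : Multiset (ZMod N)) a = 0 := rfl

end UnrG
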