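import Pool.Agent.Lib.MP_859dd5_ag.Mg.G058
import Pool.Agent.Lib.MP_859dd5_ag.K.Graded

/-!
# Monomial subfields of products of Fermat curves
-/

namespace UnrG

universe u v w

open Finset

/-- The cyclic cover `W ^ N = ∏ X_j ^ B_j (1 - X_j) ^ A_j` of the space with coordinates `t`, `X`. -/
structure CycProd (N : ℕ) {F E : Type u} [Field F] [Field E] [Algebra F E] {r n : ℕ}
    (t : Fin r → E) (X : Fin n → E) (W : E) (B A : Fin n → ZMod N) : Prop where
  ind : AlgebraicIndependent F (Sum.elim t X)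
  eq : W ^ N = ∏ j, (X j ^ (B j).val * (1 - X j) ^ (A j).val)
  gen : IntermediateField.adjoin F (Set.range t ∪ Set.range X ∪ {W}) = ⊤

/-- The Frobenius of `E` relative to `t`, `X`, `W`. -/
structure CycFrob (q : ℕ) (F : Type u) {E : Type u} [Field F] [Field E] [Algebra F E] {r n : ℕ}
    (t : Fin r → E) (X : Fin n → E) (W : E) (σ : E →+* E) : Prop where
  const : ∀ a : F, σ (algebraMap F E a) = algebraMap F E a ^ q
  ft : ∀ i, σ (t i) = t i
  fX : ∀ j, σ (X j) = X j
  fW : σ W = W

/-- The unramified classes of degree three with `σ z = q z` are killed by `C`. -/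
def KillsF (C q : ℕ) (E : Type u) [Field E] (σ : E →+* E) : Prop :=
  ∀ (m : ℕ) (z : KM m E), Unr z → z ∈ KM.deg m E 3 → KM.map m σ z = q • z → C • z = 0

end UnrG
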