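import Pool.Agent.Lib.MP_859dd5_ag.Mg.G072
import Pool.Agent.Lib.MP_859dd5_ag.Mg.G003
import Pool.Agent.Lib.MP_859dd5_ag.Mg.G061
import Pool.Agent.Lib.MP_859dd5_ag.G.NormD

/-!
# Products of Fermat curves: decomposition of classes
-/

namespace UnrG

universe u v w

open Polynomial Finset
open scoped Classical

variable {m : ℕ} {𝔽 : Type w} [Field 𝔽] [Fintype 𝔽] (b : Base 𝔽)

/-- The sum of the conjugates over a subfield whose classes are killed. Proof: `exists_trace` gives a
class `y` of `T` with image `∑ g, g ξ`; project it to degree three (`KM.proj_mem`, `KM.proj_map`,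
`KM.proj_eq`, see `exists_trT` in K/D3). Let `D = finrank T M` and `y' = D • y`: it is unramified
(`unr_smul_of_map`), and `D • (σT y - q y)` is zero by `finrank_smul_eq_zero`, as its image is
`σ (∑ g ξ) - q ∑ g ξ = 0` (`hcomm`). So `C • y' = 0`. -/
theorem galSum_kills {F M : Type u} [Field F] [Field M] [Algebra F M]
    (T : IntermediateField F M) [FiniteDimensional T M] [IsGalois T M] {σ : M →+* M}
    {σT : T →+* T} (hσT : ∀ z : T, (σT z : M) = σ z)
    (hcomm : ∀ g : M ≃ₐ[T] M, σ.comp (g : M →+* M) = (g : M →+* M).comp σ) {C q : ℕ}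
    (hC : KillsF C q T σT) {ξ : KM m M} (hξ : Unr ξ) (hd : ξ ∈ KM.deg m M 3)
    (hq : KM.map m σ ξ = q • ξ) :
    (C * Module.finrank T M) • ∑ g : M ≃ₐ[T] M, KM.map m (g : M →+* M) ξ = 0 := by
  have hm : Any m := any m
  obtain ⟨y₀, hy₀⟩ := exists_trace (K := T) (L := M) hm ξ
  obtain ⟨S, hS⟩ : ∃ S : KM m M, S = ∑ g : M ≃ₐ[T] M, KM.map m (g : M →+* M) ξ := ⟨_, rfl⟩
  have hSd : S ∈ KM.deg m M 3 := by
    rw [hS]
    exact Submodule.sum_mem _ (fun c _ => KM.deg_map _ hd)
  have hSu : Unr S := by
    rw [hS]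
    intro A hA
    exact sum_mem fun c _ => (hξ.map (c : M →+* M)) A hA
  have hSq : KM.map m σ S = q • S := by
    rw [hS, map_sum, Finset.smul_sum]
    refine Finset.sum_congr rfl fun g _ => ?_
    rw [KM.map_map, hcomm g, ← KM.map_map, hq, map_nsmul]
  rw [← hS] at hy₀ ⊢
  obtain ⟨y, hy, hyd⟩ : ∃ y : KM m T, KM.map m (algebraMap T M) y = S ∧ y ∈ KM.deg m T 3 := by
    refine ⟨KM.proj m T 3 y₀, ?_, KM.proj_mem 3 y₀⟩
    rw [← KM.proj_map, hy₀, KM.proj_eq hSd]
  obtain ⟨D, hD⟩ : ∃ D, D = Module.finrank T M := ⟨_, rfl⟩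
  have h2 : Unr (D • y) := by
    rw [hD]
    exact unr_smul_of_map hm (by rw [hy]; exact hSu)
  have hcompσ : (algebraMap T M).comp σT = σ.comp (algebraMap T M) :=
    RingHom.ext fun z => hσT z
  have h3 : KM.map m (algebraMap T M) (KM.map m σT y - q • y) = 0 := by
    rw [map_sub, KM.map_map, hcompσ, ← KM.map_map, hy, hSq, map_nsmul, hy, sub_self]
  have h4 := finrank_smul_eq_zero hm D hD.symm h3
  have h5 : KM.map m σT (D • y) = q • (D • y) := by
    rw [smul_sub, sub_eq_zero] at h4
    rw [map_nsmul, h4, smul_comm]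
  have h6 := hC m (D • y) h2 (nsmul_mem hyd D) h5
  have h7 := congrArg (KM.map m (algebraMap T M)) h6
  rw [map_nsmul, map_nsmul, hy, map_zero] at h7
  rw [← hD, mul_nsmul', h7]

/-- A relation between the sums of the conjugates. Proof: for `g` in the Galois group `G` of `M` over
`fieldX` with exponents `a`, `c` (`ProdData.exists_exp`): `g` fixes `fieldG B A` iff it fixes the
monomial iff `∑ (B a + A c) = 0` (`fix_mono_iff`), so by `card_solutions` the number of `(B, A)` such
that `g` fixes `fieldG B A` is `N ^ (2 n)` for `g = 1` and `N ^ (2 n - 1)` otherwise (`M` is generated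
by `t`, `x`, `y`, so `g = 1` iff `a = c = 0`). The automorphisms over `fieldG B A` are the elements of `G`
fixing it (as in PF/G4b). Exchange the order of summation. -/
theorem ProdData.sum_fieldG (hN : b.N.Prime) {F M : Type u} [Field F] [Field M] [Algebra F M]
    {r n : ℕ} {t : Fin r → M} {x y : Fin n → M} (h : ProdData (F := F) b t x y) (ι : 𝔽 →+* F)
    (ξ : KM m M) [Fintype (M ≃ₐ[fieldX b F t x] M)]
    [∀ B A, Fintype (M ≃ₐ[fieldG b F t x y B A] M)] :
    b.N • ∑ γ : (Fin n → ZMod b.N) × (Fin n → ZMod b.N),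
        ∑ g : M ≃ₐ[fieldG b F t x y γ.1 γ.2] M, KM.map m (g : M →+* M) ξ =
      (b.N ^ (2 * n) * (b.N - 1)) • ξ +
        b.N ^ (2 * n) • ∑ g : M ≃ₐ[fieldX b F t x] M, KM.map m (g : M →+* M) ξ := by
  have hNp : Fact b.N.Prime := ⟨hN⟩
  have hζ : IsPrimitiveRoot (algebraMap F M (ι b.ζ)) b.N :=
    b.hζ_map ((algebraMap F M).comp ι)
  have hle : ∀ B A : Fin n → ZMod b.N, fieldX b F t x ≤ fieldG b F t x y B A := fun B A =>
    IntermediateField.adjoin.mono _ _ _ Set.subset_union_left
  obtain ⟨Y, hY⟩ : ∃ Y : (Fin n → ZMod b.N) × (Fin n → ZMod b.N) → M,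
      ∀ γ, Y γ = mono x y (fun j => (γ.1 j).val) (fun j => (γ.2 j).val) := ⟨_, fun _ => rfl⟩
  have hinner : ∀ γ : (Fin n → ZMod b.N) × (Fin n → ZMod b.N),
      ∑ g : M ≃ₐ[fieldG b F t x y γ.1 γ.2] M, KM.map m (g : M →+* M) ξ =
      ∑ g ∈ univ.filter (fun g : M ≃ₐ[fieldX b F t x] M => g (Y γ) = Y γ),
        KM.map m (g : M →+* M) ξ := by
    intro γ
    let _ : Algebra (fieldX b F t x) (fieldG b F t x y γ.1 γ.2) :=
      (IntermediateField.inclusion (hle γ.1 γ.2)).toRingHom.toAlgebra
    have : IsScalarTower (fieldX b F t x) (fieldG b F t x y γ.1 γ.2) M :=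
      IsScalarTower.of_algebraMap_eq fun x => rfl
    have hYm : Y γ ∈ fieldG b F t x y γ.1 γ.2 := by
      rw [hY]
      exact IntermediateField.subset_adjoin F _ (Or.inr rfl)
    refine Finset.sum_bij (fun g _ => g.restrictScalars (fieldX b F t x)) ?_ ?_ ?_ ?_
    · intro g _
      rw [mem_filter]
      exact ⟨mem_univ _, g.commutes ⟨Y γ, hYm⟩⟩
    · intro g _ g' _ h3
      refine AlgEquiv.ext fun x => ?_
      exact DFunLike.congr_fun h3 x
    · intro g hg
      rw [mem_filter] at hg
      obtain ⟨S, hS⟩ : ∃ S : IntermediateField F M, ∀ x, x ∈ S ↔ g x = x :=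
        ⟨{ carrier := {x | g x = x}
           mul_mem' := fun {x y} hx hy => by
             change g (x * y) = x * y
             rw [map_mul, show g x = x from hx, show g y = y from hy]
           add_mem' := fun {x y} hx hy => by
             change g (x + y) = x + y
             rw [map_add, show g x = x from hx, show g y = y from hy]
           algebraMap_mem' := fun c => g.commutes (algebraMap F (fieldX b F t x) c)
           inv_mem' := fun x hx => by
             change g x⁻¹ = x⁻¹
             rw [map_inv₀, show g x = x from hx] }, fun x => Iff.rfl⟩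
      have hS' : fieldG b F t x y γ.1 γ.2 ≤ S := by
        unfold fieldG
        rw [IntermediateField.adjoin_le_iff]
        rintro z (hz | hz)
        · exact (hS z).2 (g.commutes ⟨z, IntermediateField.subset_adjoin F _ hz⟩)
        · rw [Set.mem_singleton_iff] at hz
          have h5 := (hS _).2 hg.2
          rw [hY] at h5
          rw [hz]
          exact h5
      refine ⟨{ (g : M ≃+* M) with commutes' := fun x => (hS _).mp (hS' x.2) }, mem_univ _, ?_⟩
      exact AlgEquiv.ext fun x => rfl
    · intro g _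
      rfl
  have hcount : ∀ g : M ≃ₐ[fieldX b F t x] M,
      (univ.filter fun γ : (Fin n → ZMod b.N) × (Fin n → ZMod b.N) => g (Y γ) = Y γ).card * b.N =
        if g = 1 then b.N ^ (2 * n) * b.N else b.N ^ (2 * n) := by
    intro g
    obtain ⟨a, c, ha, hc⟩ := h.exists_exp b ι g
    have h1 : (univ.filter fun γ : (Fin n → ZMod b.N) × (Fin n → ZMod b.N) =>
        g (Y γ) = Y γ) = univ.filter fun γ : (Fin n → ZMod b.N) × (Fin n → ZMod b.N) =>
        ∑ j, (γ.1 j * a j + γ.2 j * c j) = 0 := by
      refine Finset.filter_congr fun γ _ => ?_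
      rw [hY γ]
      exact fix_mono_iff b h ι (g := (g : M →+* M)) ha hc γ.1 γ.2
    rw [h1, card_solutions a c]
    refine if_congr ?_ rfl rfl
    constructor
    · rintro ⟨ha0, hc0⟩
      obtain ⟨S, hS⟩ : ∃ S : IntermediateField F M, ∀ x, x ∈ S ↔ g x = x :=
        ⟨{ carrier := {x | g x = x}
           mul_mem' := fun {x y} hx hy => by
             change g (x * y) = x * y
             rw [map_mul, show g x = x from hx, show g y = y from hy]
           add_mem' := fun {x y} hx hy => by
             change g (x + y) = x + y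
             rw [map_add, show g x = x from hx, show g y = y from hy]
           algebraMap_mem' := fun c => g.commutes (algebraMap F (fieldX b F t x) c)
           inv_mem' := fun x hx => by
             change g x⁻¹ = x⁻¹
             rw [map_inv₀, show g x = x from hx] }, fun x => Iff.rfl⟩
      have hS' : (⊤ : IntermediateField F M) ≤ S := by
        rw [← h.gen, IntermediateField.adjoin_le_iff]
        rintro z ((⟨i, rfl⟩ | ⟨j, rfl⟩) | ⟨j, rfl⟩)
        · exact (hS _).2 (g.commutes ⟨t i, IntermediateField.subset_adjoin F _ (Or.inl ⟨i, rfl⟩)⟩)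
        · refine (hS _).2 ?_
          rw [ha j, ha0]
          simp
        · refine (hS _).2 ?_
          rw [hc j, hc0]
          simp
      refine AlgEquiv.ext fun z => ?_
      exact (hS z).1 (hS' (IntermediateField.mem_top))
    · rintro rfl
      have key : ∀ (k : ZMod b.N) (z : M), z ≠ 0 →
          z = algebraMap F M (ι b.ζ) ^ k.val * z → k = 0 := by
        intro k z hz hk
        have h2 : algebraMap F M (ι b.ζ) ^ k.val = 1 := by
          have h3 : algebraMap F M (ι b.ζ) ^ k.val * z = 1 * z := by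
            rw [one_mul]
            exact hk.symm
          exact mul_right_cancel₀ hz h3
        have h4 := (hζ.pow_eq_one_iff_dvd _).1 h2
        have h5 := Nat.eq_zero_of_dvd_of_lt h4 (ZMod.val_lt k)
        exact (ZMod.val_eq_zero k).1 h5
      constructor
      · funext j
        exact key (a j) (x j) (h.ne b j).1 (ha j)
      · funext j
        exact key (c j) (y j) (h.ne b j).2 (hc j)
  have hswap : ∑ γ : (Fin n → ZMod b.N) × (Fin n → ZMod b.N),
      ∑ g ∈ univ.filter (fun g : M ≃ₐ[fieldX b F t x] M => g (Y γ) = Y γ),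
        KM.map m (g : M →+* M) ξ =
      ∑ g : M ≃ₐ[fieldX b F t x] M, ∑ γ ∈ univ.filter
        (fun γ : (Fin n → ZMod b.N) × (Fin n → ZMod b.N) => g (Y γ) = Y γ),
        KM.map m (g : M →+* M) ξ := by
    refine Finset.sum_comm' fun γ g => ?_
    simp only [mem_filter, mem_univ, true_and, and_true]
  rw [Finset.sum_congr rfl fun γ _ => hinner γ, hswap, Finset.smul_sum, Finset.smul_sum]
  have hterm : ∀ g : M ≃ₐ[fieldX b F t x] M,
      b.N • ∑ γ ∈ univ.filter (fun γ : (Fin n → ZMod b.N) × (Fin n → ZMod b.N) => g (Y γ) = Y γ),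
        KM.map m (g : M →+* M) ξ =
      (if g = 1 then (b.N ^ (2 * n) * (b.N - 1)) • ξ else 0) +
        b.N ^ (2 * n) • KM.map m (g : M →+* M) ξ := by
    intro g
    rw [Finset.sum_const, ← mul_nsmul, hcount g]
    by_cases hg : g = 1
    · rw [if_pos hg, if_pos hg, hg]
      have h1 : KM.map m ((1 : M ≃ₐ[fieldX b F t x] M) : M →+* M) ξ = ξ := by
        have h5 : ((1 : M ≃ₐ[fieldX b F t x] M) : M →+* M) = RingHom.id M := rfl
        rw [h5, KM.map_id]
        rfl
      rw [h1, ← add_smul]
      congr 1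
      have h2 := hN.two_le
      obtain ⟨k, hk⟩ : ∃ k, b.N = k + 1 := ⟨b.N - 1, by omega⟩
      have h3 : b.N - 1 = k := by omega
      rw [h3]
      calc b.N ^ (2 * n) * b.N = b.N ^ (2 * n) * (k + 1) := by rw [← hk]
        _ = b.N ^ (2 * n) * k + b.N ^ (2 * n) := by ring
    · rw [if_neg hg, if_neg hg, zero_add]
  rw [Finset.sum_congr rfl fun g _ => hterm g, Finset.sum_add_distrib, Finset.sum_ite_eq',
    if_pos (mem_univ _)]

end UnrG
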