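import Pool.Agent.Lib.MP_859dd5_ag.Mg.G009
import Pool.Agent.Lib.MP_859dd5_ag.Mg.G007

/-!
# Equality up to powers
-/

namespace UnrG

universe u v w

open Finset

variable {N : ℕ} {F K : Type u} [Field F] [Field K] [Algebra F K] {K₀ : IntermediateField F K}
  {a b c d : K}

lemma ModPow.refl (a : K) : ModPow N K₀ a a := by
  exact ⟨1, one_mem _, one_ne_zero, by rw [one_pow, one_mul]⟩

lemma ModPow.symm (h : ModPow N K₀ a b) : ModPow N K₀ b a := by
  obtain ⟨z, hz, hz0, h1⟩ := h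
  refine ⟨z⁻¹, inv_mem hz, inv_ne_zero hz0, ?_⟩
  rw [h1, ← mul_assoc, ← mul_pow, inv_mul_cancel₀ hz0, one_pow, one_mul]

lemma ModPow.trans (h : ModPow N K₀ a b) (h' : ModPow N K₀ b c) : ModPow N K₀ a c := by
  obtain ⟨z, hz, hz0, h1⟩ := h
  obtain ⟨y, hy, hy0, h2⟩ := h'
  refine ⟨z * y, mul_mem hz hy, mul_ne_zero hz0 hy0, ?_⟩
  rw [h1, h2, mul_pow, mul_assoc]

lemma ModPow.mul (h : ModPow N K₀ a b) (h' : ModPow N K₀ c d) : ModPow N K₀ (a * c) (b * d) := by
  obtain ⟨z, hz, hz0, h1⟩ := h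
  obtain ⟨y, hy, hy0, h2⟩ := h'
  refine ⟨z * y, mul_mem hz hy, mul_ne_zero hz0 hy0, ?_⟩
  rw [h1, h2, mul_pow]
  ring

/-- Hint: induction on the finite set. -/
lemma ModPow.prod {ι : Type*} (s : Finset ι) {f g : ι → K} (h : ∀ i ∈ s, ModPow N K₀ (f i) (g i)) :
    ModPow N K₀ (∏ i ∈ s, f i) (∏ i ∈ s, g i) := by
  classical
  induction s using Finset.induction_on with
  | empty =>
    rw [prod_empty, prod_empty]
    exact ModPow.refl 1
  | insert i s hi ih =>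
    rw [prod_insert hi, prod_insert hi]
    exact ModPow.mul (h i (mem_insert_self i s)) (ih fun k hk => h k (mem_insert_of_mem hk))

lemma ModPow.pow (h : ModPow N K₀ a b) (k : ℕ) : ModPow N K₀ (a ^ k) (b ^ k) := by
  obtain ⟨z, hz, hz0, h1⟩ := h
  refine ⟨z ^ k, pow_mem hz k, pow_ne_zero k hz0, ?_⟩
  rw [h1, mul_pow, ← pow_mul, ← pow_mul, mul_comm N k]

/-- Powers of an element of the subfield with congruent exponents. Hint: if
`(k : ZMod N) = l` and `k ≤ l` then `l = k + N * s` (`ZMod.natCast_eq_natCast_iff'`, `Nat.ModEq`). -/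
lemma ModPow.pow_congr {u : K} (hu : u ∈ K₀) (hu0 : u ≠ 0) {k l : ℕ}
    (h : (k : ZMod N) = l) : ModPow N K₀ (u ^ k) (u ^ l) := by
  have key : ∀ k l : ℕ, k ≤ l → (k : ZMod N) = l → ModPow N K₀ (u ^ l) (u ^ k) := by
    intro k l hkl hz
    obtain ⟨s, hs⟩ : N ∣ l - k := by
      rw [← ZMod.natCast_eq_zero_iff, Nat.cast_sub hkl, hz, sub_self]
    refine ⟨u ^ s, pow_mem hu s, pow_ne_zero s hu0, ?_⟩
    have h1 : l = s * N + k := by
      rw [mul_comm s N]
      omega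
    rw [h1, pow_add, pow_mul]
  rcases le_total k l with hkl | hkl
  · exact (key k l hkl h).symm
  · exact key l k hkl h.symm

/-- Hint: `ModPow.pow_congr` with `l = 0`. -/
lemma ModPow.pow_one {u : K} (hu : u ∈ K₀) (hu0 : u ≠ 0) {k : ℕ} (h : (k : ZMod N) = 0) :
    ModPow N K₀ (u ^ k) 1 := by
  have h1 : ModPow N K₀ (u ^ k) (u ^ 0) := ModPow.pow_congr hu hu0 (by rw [h, Nat.cast_zero])
  rw [pow_zero] at h1
  exact h1

/-- Constants which are `N`-th powers. -/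
lemma ModPow.const (hN : 0 < N) {κ : F} (hκ : κ ≠ 0) (hz : ∃ z : F, z ^ N = κ) :
    ModPow N K₀ (algebraMap F K κ) 1 := by
  obtain ⟨z, hz⟩ := hz
  refine ⟨algebraMap F K z, K₀.algebraMap_mem z, ?_, ?_⟩
  · intro h0
    have h1 : z = 0 := (map_eq_zero (algebraMap F K)).mp h0
    rw [h1, zero_pow hN.ne'] at hz
    exact hκ hz.symm
  · rw [← map_pow, hz, mul_one]

/-- Hint: `ModPow.const` with `κ = -1`. -/
lemma ModPow.neg [hF : NegPow F N] (hN : 0 < N) (a : K) : ModPow N K₀ (-a) a := by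
  have h1 : ModPow N K₀ (algebraMap F K (-1)) 1 :=
    ModPow.const hN (neg_ne_zero.mpr one_ne_zero) hF.exists_pow
  have h2 := h1.mul (ModPow.refl (N := N) (K₀ := K₀) a)
  rw [map_neg, map_one, neg_one_mul, one_mul] at h2
  exact h2

/-- A larger subfield. -/
lemma ModPow.mono {K₁ : IntermediateField F K} (h : ModPow N K₀ a b) (hle : K₀ ≤ K₁) :
    ModPow N K₁ a b := by
  obtain ⟨z, hz, hz0, h1⟩ := h
  exact ⟨z, hle hz, hz0, h1⟩

/-- The image in an extension field. -/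
lemma ModPow.map {K' : Type u} [Field K'] [Algebra F K'] [Algebra K K'] [IsScalarTower F K K']
    {K₁ : IntermediateField F K'} (hle : ∀ z ∈ K₀, algebraMap K K' z ∈ K₁)
    (h : ModPow N K₀ a b) : ModPow N K₁ (algebraMap K K' a) (algebraMap K K' b) := by
  obtain ⟨z, hz, hz0, h1⟩ := h
  refine ⟨algebraMap K K' z, hle z hz, ?_, ?_⟩
  · intro h0
    exact hz0 ((map_eq_zero (algebraMap K K')).mp h0)
  · rw [h1, map_mul, map_pow]

end UnrG
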